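import Pool.Agent.W2helper75.FD.Stm2

/-!
# Project FD, part 2, piece CNE: the cone is a cone
-/

set_option autoImplicit false

namespace Pool.Agent.W2helper11.FD

open Pool.Agent.W2helper75.FD

theorem cne : P_CNE := by
  intro Γ _ S h B t b hA
  have hone : h 1 = 0 := by
    have := hA.hom 1 1
    rw [mul_one] at this
    omega
  have hconjn : ∀ m : ℕ, ∀ x ∈ B, t ^ m * x * (t ^ m)⁻¹ ∈ B := by
    intro m
    induction m with
    | zero =>
      intro x hx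
      simpa using hx
    | succ m ih =>
      intro x hx
      have h1 := hA.conj _ (ih x hx)
      have h2 : t * (t ^ m * x * (t ^ m)⁻¹) * t⁻¹ = t ^ (m + 1) * x * (t ^ (m + 1))⁻¹ := by
        rw [pow_succ' t m]
        group
      rwa [h2] at h1
  have hconj : ∀ m : ℤ, 0 ≤ m → ∀ x ∈ B, t ^ m * x * t ^ (-m) ∈ B := by
    intro m hm x hx
    obtain ⟨n, rfl⟩ := Int.eq_ofNat_of_zero_le hm
    have h1 := hconjn n x hx
    rw [zpow_neg, zpow_natCast]
    exact h1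
  have hinv : ∀ x, h x⁻¹ = - h x := by
    intro x
    have h1 := hA.hom x x⁻¹
    rw [mul_inv_cancel, hone] at h1
    omega
  refine ⟨hA.hom, ?_, ?_, ?_, ?_, ?_⟩
  · refine ⟨by rw [hone], ?_⟩
    rw [hone]
    simp [B.one_mem]
  · rintro x ⟨hx0, hx⟩ y ⟨hy0, hy⟩
    refine ⟨by rw [hA.hom]; omega, ?_⟩
    have h1 := B.mul_mem hx (hconj (h x) hx0 _ hy)
    have h2 : x * t ^ (-h x) * (t ^ h x * (y * t ^ (-h y)) * t ^ (-h x)) =
        x * y * t ^ (-h (x * y)) := by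
      rw [hA.hom]
      group
    rwa [h2] at h1
  · rintro x ⟨hx0, -⟩
    exact hx0
  · rintro x ⟨hx0, hx⟩ s hs h0
    refine ⟨h0, ?_⟩
    obtain ⟨n, hn⟩ := Int.eq_ofNat_of_zero_le hx0
    have h1 := B.mul_mem hx (hA.gens s hs n)
    have h2 : x * t ^ (-h x) * (t ^ n * (s * t ^ (-h s)) * (t ^ n)⁻¹) =
        x * s * t ^ (-h (x * s)) := by
      have h3 : t ^ n = t ^ (h x) := by
        rw [hn]
        exact (zpow_natCast t n).symm
      rw [h3, hA.hom]
      group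
    rwa [h2] at h1
  · have key : ∀ x y z : Γ, x⁻¹ * z ∈ cone h B t → y⁻¹ * z ∈ cone h B t →
        h (y⁻¹ * z) ≤ h (x⁻¹ * z) → x⁻¹ * y ∈ cone h B t := by
      rintro x y z ⟨hx0, hx⟩ ⟨hy0, hy⟩ hle
      have e1 : h (x⁻¹ * y) = h (x⁻¹ * z) - h (y⁻¹ * z) := by
        have a1 := hA.hom x⁻¹ z
        have a2 := hA.hom y⁻¹ z
        have a3 := hA.hom x⁻¹ y
        have a4 := hinv y
        omega
      refine ⟨by rw [e1]; omega, ?_⟩
      have h1 := B.mul_mem hx (hconj (h (x⁻¹ * z) - h (y⁻¹ * z)) (by omega) _ (B.inv_mem hy))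
      have h2 : x⁻¹ * z * t ^ (-h (x⁻¹ * z)) * (t ^ (h (x⁻¹ * z) - h (y⁻¹ * z)) *
          (y⁻¹ * z * t ^ (-h (y⁻¹ * z)))⁻¹ * t ^ (-(h (x⁻¹ * z) - h (y⁻¹ * z)))) =
          x⁻¹ * y * t ^ (-h (x⁻¹ * y)) := by
        rw [e1]
        generalize h (x⁻¹ * z) = p
        generalize h (y⁻¹ * z) = q
        group
      rwa [h2] at h1
    intro x y z hx hy
    rcases le_total (h (y⁻¹ * z)) (h (x⁻¹ * z)) with hle | hle
    · exact Or.inl (key x y z hx hy hle)
    · exact Or.inr (key y x z hy hx hle)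

end Pool.Agent.W2helper11.FD
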