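import Pool.Agent.W2helper75.FD.Stm2

/-!
# Project FD, part 2, piece OFF: bounded offspring with mean at least two
-/

set_option autoImplicit false

open MeasureTheory ProbabilityTheory Filter Topology
open scoped ENNReal NNReal

namespace Pool.Agent.W2helper11.FD

open Pool.Agent.W2helper75.FD

lemma bonf (ρ : ℝ) (h0 : 0 ≤ ρ) (h1 : ρ ≤ 1) (k : ℕ) :
    (1 - ρ) ^ k ≤ 1 - k * ρ + (k : ℝ) ^ 2 * ρ ^ 2 := by
  induction k with
  | zero => simp
  | succ k ih =>
    have h2 : (1 - ρ) ^ (k + 1) ≤ (1 - k * ρ + (k : ℝ) ^ 2 * ρ ^ 2) * (1 - ρ) := by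
      rw [pow_succ]
      exact mul_le_mul_of_nonneg_right ih (by linarith)
    refine h2.trans ?_
    push_cast
    have hk : (0 : ℝ) ≤ k := Nat.cast_nonneg k
    nlinarith [mul_nonneg (mul_nonneg hk hk) (mul_nonneg h0 (mul_nonneg h0 h0)),
      mul_nonneg hk (mul_nonneg h0 h0), mul_nonneg h0 h0]

theorem off : P_OFF := by
  intro N
  obtain ⟨ρ, hρ⟩ : ∃ ρ : ℝ, ρ = 1 / ((N : ℝ) ^ 2 + 1) := ⟨_, rfl⟩
  have hN : (0 : ℝ) ≤ (N : ℝ) ^ 2 := by positivity
  have hρ0 : 0 < ρ := by rw [hρ]; positivity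
  have hρ1 : ρ ≤ 1 := by
    rw [hρ, div_le_one (by positivity)]
    linarith
  have hρN : ρ * (N : ℝ) ^ 2 ≤ 1 := by
    rw [hρ, div_mul_eq_mul_div, one_mul, div_le_one (by positivity)]
    linarith
  have hρN1 : ρ * (N : ℝ) ≤ 1 := by
    rcases Nat.eq_zero_or_pos N with h | h
    · rw [h]
      simp
    · have h1 : (1 : ℝ) ≤ N := by exact_mod_cast h
      nlinarith [mul_nonneg hρ0.le (mul_nonneg (Nat.cast_nonneg N : (0 : ℝ) ≤ N)
        (sub_nonneg.2 h1))]
  refine ⟨ENNReal.ofReal ρ, ENNReal.ofReal_pos.2 hρ0, by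
    rw [← ENNReal.ofReal_one]; exact ENNReal.ofReal_le_ofReal hρ1, ?_⟩
  intro D _ μ _ f hf hfN h2
  have hsub : (1 : ℝ≥0∞) - ENNReal.ofReal ρ = ENNReal.ofReal (1 - ρ) := by
    rw [ENNReal.ofReal_sub _ hρ0.le, ENNReal.ofReal_one]
  have hfm : Measurable fun d => (f d : ℝ) := measurable_from_top.comp hf
  have hfi : Integrable (fun d => (f d : ℝ)) μ := by
    refine Integrable.of_bound hfm.aestronglyMeasurable (N : ℝ) (Eventually.of_forall fun d => ?_)
    rw [Real.norm_of_nonneg (Nat.cast_nonneg _)]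
    exact_mod_cast hfN d
  have hE : ENNReal.ofReal 2 ≤ ENNReal.ofReal (∫ d, (f d : ℝ) ∂μ) := by
    rw [ofReal_integral_eq_lintegral_ofReal hfi (Eventually.of_forall fun d => Nat.cast_nonneg _)]
    simp only [ENNReal.ofReal_natCast]
    simpa using h2
  have hE' : (2 : ℝ) ≤ ∫ d, (f d : ℝ) ∂μ := by
    rcases (ENNReal.ofReal_le_ofReal_iff' ).1 hE with h | h
    · exact h
    · exact absurd h (by norm_num)
  rw [hsub]
  calc ∫⁻ d, ENNReal.ofReal (1 - ρ) ^ (f d) ∂μ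
      ≤ ∫⁻ d, ENNReal.ofReal (1 + (N : ℝ) ^ 2 * ρ ^ 2 - ρ * (f d : ℝ)) ∂μ := by
        refine lintegral_mono fun d => ?_
        rw [← ENNReal.ofReal_pow (by linarith)]
        apply ENNReal.ofReal_le_ofReal
        refine (bonf ρ hρ0.le hρ1 (f d)).trans ?_
        have h3 : (f d : ℝ) ≤ N := by exact_mod_cast hfN d
        have h4 : (f d : ℝ) ^ 2 ≤ (N : ℝ) ^ 2 := pow_le_pow_left₀ (Nat.cast_nonneg _) h3 2
        nlinarith [mul_le_mul_of_nonneg_right h4 (sq_nonneg ρ)]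
    _ = ENNReal.ofReal (∫ d, (1 + (N : ℝ) ^ 2 * ρ ^ 2 - ρ * (f d : ℝ)) ∂μ) := by
        rw [ofReal_integral_eq_lintegral_ofReal]
        · exact (integrable_const _).sub (hfi.const_mul ρ)
        · refine Eventually.of_forall fun d => ?_
          have h3 : (f d : ℝ) ≤ N := by exact_mod_cast hfN d
          have h5 : ρ * (f d : ℝ) ≤ ρ * N := mul_le_mul_of_nonneg_left h3 hρ0.le
          have h6 : 0 ≤ (N : ℝ) ^ 2 * ρ ^ 2 := by positivity
          simp only [Pi.zero_apply]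
          linarith
    _ ≤ ENNReal.ofReal (1 - ρ) := by
        apply ENNReal.ofReal_le_ofReal
        rw [integral_sub (integrable_const _) (hfi.const_mul ρ), integral_const,
          integral_const_mul]
        simp only [probReal_univ, one_smul]
        nlinarith [mul_le_mul_of_nonneg_left hE' hρ0.le, mul_le_mul_of_nonneg_left hρN hρ0.le]

end Pool.Agent.W2helper11.FD
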