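import Pool.Agent.W2helper75.FD.Stm2
import Pool.Agent.W2helper19.FD.Wlk

/-!
# Project FD, part 2, piece QQ: `qq` is a probability
-/

set_option autoImplicit false

open MeasureTheory ProbabilityTheory Filter Topology
open scoped ENNReal NNReal

namespace Pool.Agent.W2helper11.FD

open Pool.Agent.W2helper75.FD
open Pool.Agent.W2helper19.FD (cns map_cns measurable_cns measurableSet_pth pth_cns)

lemma qq_nonneg {X S : Type} [Fintype S] [Nonempty S] (mx : X → S → X) (o : X) (k : ℕ) :
    ∀ x, 0 ≤ qq mx o k x := by
  induction k with
  | zero =>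
    intro x
    simp only [qq]
    split_ifs <;> norm_num
  | succ k ih =>
    intro x
    simp only [qq]
    exact div_nonneg (Finset.sum_nonneg fun s _ => ih _) (Nat.cast_nonneg _)

theorem qqp : P_QQ := by
  intro X S _ _ _ _ mx o x k
  have hc : (0 : ℝ) < Fintype.card S := by exact_mod_cast Fintype.card_pos
  induction k generalizing x with
  | zero =>
    by_cases h : x = o
    · have h1 : {c : ℕ → S | pth mx x c 0 = o} = Set.univ := by
        ext c
        simp [pth, h]
      rw [h1, measure_univ]
      simp [qq, h]
    · have h1 : {c : ℕ → S | pth mx x c 0 = o} = ∅ := by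
        ext c
        simp [pth, h]
      rw [h1, measure_empty]
      simp [qq, h]
  | succ k ih =>
    have hms : MeasurableSet {c : ℕ → S | pth mx x c (k + 1) = o} :=
      measurableSet_pth mx x (k + 1) {o}
    have hpre : cns ⁻¹' {c : ℕ → S | pth mx x c (k + 1) = o} =
        {p : S × (ℕ → S) | p.2 ∈ {c : ℕ → S | pth mx (mx x p.1) c k = o}} := by
      ext p
      simp only [Set.mem_preimage, Set.mem_ofPred_eq]
      rw [pth_cns]
    have hmap : mlaw S = ((unif S).prod (mlaw S)).map cns := (map_cns (unif S)).symm
    have hmeas : MeasurableSet (cns ⁻¹' {c : ℕ → S | pth mx x c (k + 1) = o}) :=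
      measurable_cns hms
    have h2 : mlaw S {c | pth mx x c (k + 1) = o} =
        ∫⁻ s, mlaw S {c | pth mx (mx x s) c k = o} ∂(unif S) := by
      conv_lhs => rw [hmap]
      rw [Measure.map_apply measurable_cns hms, Measure.prod_apply hmeas]
      refine lintegral_congr fun s => ?_
      rw [hpre]
      rfl
    rw [h2, lintegral_fintype]
    have hun : ∀ s : S, unif S {s} = ENNReal.ofReal (1 / (Fintype.card S : ℝ)) := by
      intro s
      unfold unif
      rw [PMF.toMeasure_apply_singleton _ _ (MeasurableSet.of_discrete),
        PMF.uniformOfFintype_apply, one_div, ENNReal.ofReal_inv_of_pos hc,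
        ENNReal.ofReal_natCast]
    calc ∑ s, mlaw S {c | pth mx (mx x s) c k = o} * unif S {s}
        = ∑ s, ENNReal.ofReal (qq mx o k (mx x s) * (1 / (Fintype.card S : ℝ))) := by
          refine Finset.sum_congr rfl fun s _ => ?_
          rw [ENNReal.ofReal_mul (qq_nonneg mx o k _), hun s, ih]
      _ = ENNReal.ofReal (∑ s, qq mx o k (mx x s) * (1 / (Fintype.card S : ℝ))) := by
          rw [ENNReal.ofReal_sum_of_nonneg]
          intro s _
          exact mul_nonneg (qq_nonneg mx o k _) (by positivity)
      _ = ENNReal.ofReal (qq mx o (k + 1) x) := by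
          congr 1
          simp only [qq]
          rw [← Finset.sum_mul, mul_one_div]

end Pool.Agent.W2helper11.FD
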